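import Mathlib

/-!
# Polynomials of range sum `k p` and degree `(p - 1) / 2`

For `k ≥ 2` and every prime `p ≥ max 7 (k + 3)` the polynomial
`(x^((p-1)/2) + 1) + ((x+1)^((p-1)/2) + 1) + (k - 2)` has range sum `k p` and degree `(p-1)/2`, and it is not of the
form `c ((a x + b)^((p-1)/2) + 1) + d`.
-/

namespace Pool.Agent.Results.MP_1e20d6_nt.TwoTranslates

open Polynomial

/-- The range sum of a polynomial over `F_p`: the sum of its values, read as integers in `{0, …, p-1}`. -/
noncomputable def rangeSum {p : ℕ} [Fact p.Prime] (P : (ZMod p)[X]) : ℕ := ∑ x : ZMod p, (P.eval x).val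

/-- `P` defines the same function as `c ((a x + b)^((p-1)/2) + 1) + d` for some `a ≠ 0`, `b`, `c`, `d` in `F_p`. -/
def Special {p : ℕ} [Fact p.Prime] (P : (ZMod p)[X]) : Prop :=
  ∃ a b c d : ZMod p, a ≠ 0 ∧ ∀ x : ZMod p, P.eval x = c * ((a * x + b) ^ ((p - 1) / 2) + 1) + d

/-- The assertion of the question for one `k` and one prime `p`: every polynomial over `F_p` (of degree at most
`p - 1`) with range sum `k p` is special or has degree `> (p - 1) / 2`. -/
def Assertion (k p : ℕ) [Fact p.Prime] : Prop :=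
  ∀ P : (ZMod p)[X], P.natDegree ≤ p - 1 → rangeSum P = k * p → Special P ∨ (p - 1) / 2 < P.natDegree

variable {p : ℕ} [Fact p.Prime]

/-- the polynomial `x^m + (x+1)^m + k` -/
noncomputable def Pk (p k : ℕ) : (ZMod p)[X] := X ^ ((p - 1) / 2) + (X + 1) ^ ((p - 1) / 2) + C (k : ZMod p)

lemma natDegree_Pk_le (k : ℕ) : (Pk p k).natDegree ≤ (p - 1) / 2 := by
  unfold Pk
  refine (natDegree_add_le _ _).trans (max_le ((natDegree_add_le _ _).trans (max_le ?_ ?_)) ?_)
  · exact natDegree_X_pow_le _
  · refine natDegree_pow_le.trans ?_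
    have : (X + 1 : (ZMod p)[X]).natDegree ≤ 1 := by
      rw [← C_1]; exact (natDegree_X_add_C _).le
    exact (Nat.mul_le_mul_left _ this).trans (by omega)
  · rw [natDegree_C]; exact Nat.zero_le _

lemma pow_eq_char (hp : p ≠ 2) (x : ZMod p) : x ^ ((p - 1) / 2) = ((quadraticChar (ZMod p) x : ℤ) : ZMod p) := by
  have hpp : p.Prime := Fact.out
  have h2 : ringChar (ZMod p) ≠ 2 := by rw [ZMod.ringChar_zmod_n]; exact hp
  have := quadraticChar_eq_pow_of_char_ne_two' h2 x
  rw [this, ZMod.card]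
  have hodd := hpp.eq_two_or_odd
  congr 1
  omega

lemma char_le (x : ZMod p) : -1 ≤ quadraticChar (ZMod p) x ∧ quadraticChar (ZMod p) x ≤ 1 := by
  by_cases hx : x = 0
  · rw [hx, quadraticChar_zero]; norm_num
  · rcases quadraticChar_dichotomy hx with h | h <;> rw [h] <;> norm_num

lemma val_Pk (hp : 3 ≤ p) (k : ℕ) (hk : 2 ≤ k) (hkp : k + 3 ≤ p) (x : ZMod p) :
    (((Pk p k).eval x).val : ℤ) = quadraticChar (ZMod p) x + quadraticChar (ZMod p) (x + 1) + k := by
  have h1 : (Pk p k).eval x =
      ((quadraticChar (ZMod p) x + quadraticChar (ZMod p) (x + 1) + k : ℤ) : ZMod p) := by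
    unfold Pk
    simp only [eval_add, eval_pow, eval_X, eval_one, eval_C]
    rw [pow_eq_char (by omega), pow_eq_char (by omega)]
    push_cast; ring
  rw [h1, ZMod.val_intCast]
  have h2 := char_le x
  have h3 := char_le (x + 1)
  apply Int.emod_eq_of_lt <;> omega

lemma rangeSum_Pk (hp : 3 ≤ p) (k : ℕ) (hk : 2 ≤ k) (hkp : k + 3 ≤ p) : rangeSum (Pk p k) = k * p := by
  have h2 : ringChar (ZMod p) ≠ 2 := by rw [ZMod.ringChar_zmod_n]; omega
  have h0 : ((rangeSum (Pk p k) : ℕ) : ℤ) = (k * p : ℕ) := by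
    unfold rangeSum
    push_cast
    simp_rw [val_Pk hp k hk hkp]
    rw [Finset.sum_add_distrib, Finset.sum_add_distrib, quadraticChar_sum_zero h2]
    have : ∑ x : ZMod p, quadraticChar (ZMod p) (x + 1) = 0 := by
      rw [← quadraticChar_sum_zero h2]
      exact Fintype.sum_equiv (Equiv.addRight 1) _ _ (fun x => rfl)
    rw [this]
    simp [ZMod.card]; ring
  exact_mod_cast h0

lemma not_special (hp : 7 ≤ p) (k : ℕ) : ¬ Special (Pk p k) := by
  rintro ⟨a, b, c, d, ha, h⟩
  have hpp : p.Prime := Fact.out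
  set m := (p - 1) / 2 with hm
  have hm3 : 3 ≤ m := by omega
  have hmp : m < p := by omega
  -- equality of polynomials
  let R : (ZMod p)[X] := C (c * a ^ m) * (X + C (b / a)) ^ m + C (c + d)
  have hR : ∀ x : ZMod p, (Pk p k).eval x = R.eval x := by
    intro x
    rw [h x]
    simp only [R, eval_add, eval_mul, eval_C, eval_pow, eval_X]
    have : a * x + b = a * (x + b / a) := by field_simp
    rw [this, mul_pow]; ring
  have hdegR : R.natDegree ≤ m := by
    refine (natDegree_add_le _ _).trans (max_le ((natDegree_C_mul_le _ _).trans ?_) ?_)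
    · refine natDegree_pow_le.trans ?_
      rw [natDegree_X_add_C]; omega
    · rw [natDegree_C]; omega
  have hPR : Pk p k = R := by
    have hlt : (Pk p k - R).natDegree < p :=
      lt_of_le_of_lt ((natDegree_sub_le _ _).trans (max_le (natDegree_Pk_le k) hdegR)) hmp
    have : Pk p k - R = 0 := by
      by_contra hne
      have h1 : (Finset.univ : Finset (ZMod p)) ⊆ (Pk p k - R).roots.toFinset := by
        intro x _
        rw [Multiset.mem_toFinset, mem_roots hne, IsRoot.def, eval_sub, hR, sub_self]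
      have h2 := Finset.card_le_card h1
      rw [Finset.card_univ, ZMod.card] at h2
      have h3 := (Multiset.toFinset_card_le (Pk p k - R).roots).trans (card_roots' _)
      omega
    exact sub_eq_zero.mp this
  have hc : ∀ j, 1 ≤ j → j ≤ m → (Pk p k).coeff j = (if j = m then 1 else 0) + (m.choose j : ZMod p) := by
    intro j hj1 hjm
    unfold Pk
    rw [coeff_add, coeff_add, coeff_X_pow, coeff_C_of_ne_zero (by omega), coeff_X_add_one_pow, add_zero]
  have hcR : ∀ j, 1 ≤ j → j ≤ m → R.coeff j = c * a ^ m * ((b / a) ^ (m - j) * (m.choose j : ZMod p)) := by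
    intro j hj1 hjm
    simp only [R]
    rw [coeff_add, coeff_C_mul, coeff_C_of_ne_zero (by omega), coeff_X_add_C_pow, add_zero]
  have e0 := hc m (by omega) le_rfl
  have e1 := hc (m - 1) (by omega) (by omega)
  have e2 := hc (m - 2) (by omega) (by omega)
  rw [hPR, hcR _ (by omega) (by omega)] at e0 e1 e2
  rw [if_pos rfl, Nat.sub_self, pow_zero, Nat.choose_self] at e0
  rw [if_neg (by omega), show m - (m - 1) = 1 by omega, pow_one,
    show m.choose (m - 1) = m by rw [Nat.choose_symm (by omega : 1 ≤ m), Nat.choose_one_right]] at e1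
  rw [if_neg (by omega), show m - (m - 2) = 2 by omega,
    show m.choose (m - 2) = m.choose 2 by rw [Nat.choose_symm (by omega : 2 ≤ m)]] at e2
  have hm0 : (m : ZMod p) ≠ 0 := by
    rw [Ne, ZMod.natCast_eq_zero_iff]
    exact fun hd => by have := Nat.le_of_dvd (by omega) hd; omega
  have hch : ((m.choose 2 : ℕ) : ZMod p) ≠ 0 := by
    rw [Ne, ZMod.natCast_eq_zero_iff]
    intro hd
    have h2 : p ∣ m * (m - 1) := by
      have := Nat.choose_two_right m
      have h3 : m.choose 2 * 2 = m * (m - 1) := by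
        rw [this]; exact Nat.div_mul_cancel (Nat.even_mul_pred_self m).two_dvd
      rw [← h3]; exact Dvd.dvd.mul_right hd 2
    rcases hpp.dvd_mul.mp h2 with h | h
    · have := Nat.le_of_dvd (by omega) h; omega
    · have := Nat.le_of_dvd (by omega) h; omega
  have h2ne : (2 : ZMod p) ≠ 0 := by
    have : ((2 : ℕ) : ZMod p) ≠ 0 := by
      rw [Ne, ZMod.natCast_eq_zero_iff]
      exact fun hd => by have := Nat.le_of_dvd (by omega) hd; omega
    exact_mod_cast this
  have e0' : c * a ^ m = 2 := by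
    have : c * a ^ m * (1 * ((1 : ℕ) : ZMod p)) = 1 + ((1 : ℕ) : ZMod p) := e0
    push_cast at this
    linear_combination this
  rw [e0'] at e1 e2
  have e1' : 2 * (b / a) = 1 := by
    have : (m : ZMod p) * (2 * (b / a)) = m * 1 := by linear_combination e1
    exact mul_left_cancel₀ hm0 this
  have e2' : 2 * (b / a) ^ 2 = 1 := by
    have : ((m.choose 2 : ℕ) : ZMod p) * (2 * (b / a) ^ 2) = (m.choose 2 : ℕ) * 1 := by linear_combination e2
    exact mul_left_cancel₀ hch this
  have : (b / a) = 1 := by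
    have h5 : (b / a) * (2 * (b / a)) = 1 := by linear_combination e2'
    rw [e1', mul_one] at h5
    exact h5
  rw [this] at e1'
  have : (1 : ZMod p) = 0 := by linear_combination e1'
  exact one_ne_zero this

lemma fails (k : ℕ) (hk : 2 ≤ k) (p : ℕ) [Fact p.Prime] (hp : max 7 (k + 3) ≤ p) : ¬ Assertion k p := by
  intro h
  have h7 : 7 ≤ p := (le_max_left _ _).trans hp
  have hkp : k + 3 ≤ p := (le_max_right _ _).trans hp
  rcases h (Pk p k) ((natDegree_Pk_le k).trans (by omega)) (rangeSum_Pk (by omega) k hk hkp) with h1 | h1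
  · exact not_special h7 k h1
  · exact absurd (natDegree_Pk_le (p := p) k) (by omega)

/-- For every `k ≥ 2` the assertion fails at every prime `p ≥ max 7 (k + 3)`; in particular it fails at infinitely
many primes. -/
theorem result (k : ℕ) (hk : 2 ≤ k) :
    (∀ (p : ℕ) (hp : p.Prime), max 7 (k + 3) ≤ p → ¬ @Assertion k p ⟨hp⟩) ∧
    {p : ℕ | ∃ hp : p.Prime, ¬ @Assertion k p ⟨hp⟩}.Infinite := by
  have h1 : ∀ (p : ℕ) (hp : p.Prime), max 7 (k + 3) ≤ p → ¬ @Assertion k p ⟨hp⟩ :=
    fun p hp h => @fails k hk p ⟨hp⟩ h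
  refine ⟨h1, ?_⟩
  rw [Set.infinite_iff_exists_gt]
  intro n
  obtain ⟨p, hpn, hp⟩ := Nat.exists_infinite_primes (max (n + 1) (max 7 (k + 3)))
  exact ⟨p, ⟨hp, h1 p hp ((le_max_right _ _).trans hpn)⟩, lt_of_lt_of_le (Nat.lt_succ_self n) ((le_max_left _ _).trans hpn)⟩

end Pool.Agent.Results.MP_1e20d6_nt.TwoTranslates
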